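import Mathlib

set_option autoImplicit false

namespace Pool.Agent.H.Hat

open Finset Polynomial

section field
variable {F : Type} [Field F] [Fintype F]

lemma sum_pow_zero (j : ℕ) (h : j = 0 ∨ ¬ (Fintype.card F - 1) ∣ j) : ∑ x : F, x ^ j = 0 := by
  classical
  by_cases hi : j = 0
  · simp only [hi, nsmul_one, sum_const, pow_zero, card_univ, FiniteField.cast_card_eq_zero]
  have hiq : ¬ (Fintype.card F - 1) ∣ j := h.resolve_left hi
  let φ : Fˣ ↪ F := ⟨fun x ↦ x, Units.val_injective⟩
  have : univ.map φ = univ \ {0} := by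
    ext x
    simpa only [mem_map, mem_univ, Function.Embedding.coeFn_mk, true_and, mem_sdiff,
      mem_singleton, φ] using! isUnit_iff_ne_zero
  calc
    ∑ x : F, x ^ j = ∑ x ∈ univ \ {(0 : F)}, x ^ j := by
      rw [← sum_sdiff ({0} : Finset F).subset_univ, sum_singleton, zero_pow hi, add_zero]
    _ = ∑ x : Fˣ, (x ^ j : F) := by simp [φ, ← this, univ.sum_map φ]
    _ = 0 := by rw [FiniteField.sum_pow_units F j, if_neg]; exact hiq

lemma sum_eval_zero (P : F[X])
    (h : ∀ j, 0 < j → (Fintype.card F - 1) ∣ j → P.coeff j = 0) : ∑ x : F, P.eval x = 0 := by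
  simp only [eval_eq_sum_range]
  rw [sum_comm]
  refine sum_eq_zero fun j _ => ?_
  rw [← mul_sum]
  by_cases hj : j = 0 ∨ ¬ (Fintype.card F - 1) ∣ j
  · rw [sum_pow_zero j hj, mul_zero]
  · push Not at hj
    rw [h j (Nat.pos_of_ne_zero hj.1) hj.2, zero_mul]

lemma curve_sum [CharP F 2] {ι : Type} [Fintype ι] (p : ι → F[X]) (hp : ∀ j, (p j).natDegree ≤ 2)
    (e B b : ℕ) (hN : 2 ^ e = B * b) (hB : 2 * Fintype.card ι < B) (hq : 2 ^ e ∣ Fintype.card F)
    (lo hi : ι → ℕ) (hlo : ∀ j, lo j < b) (hb : 0 < b)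
    (hα : ∀ j, lo j + 2 ^ e * hi j ≤ Fintype.card F - 1) :
    ∑ x : F, ∏ j, (p j).eval x ^ (lo j + 2 ^ e * hi j) = 0 := by
  classical
  haveI : Fact (Nat.Prime 2) := ⟨Nat.prime_two⟩
  haveI : ExpChar F 2 := ExpChar.prime Nat.prime_two
  set q := Fintype.card F with hqdef
  have hq1 : 1 < q := Fintype.one_lt_card
  set L : F[X] := ∏ j, p j ^ lo j with hL
  set H : F[X] := ∏ j, p j ^ hi j with hH
  have hP : (∏ j, p j ^ (lo j + 2 ^ e * hi j)) = L * H ^ (2 ^ e) := by
    rw [hL, hH, ← prod_pow, ← prod_mul_distrib]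
    refine prod_congr rfl fun j _ => ?_
    rw [pow_add, ← pow_mul, mul_comm (hi j)]
  have hdegP : (∏ j, p j ^ (lo j + 2 ^ e * hi j)).natDegree ≤ Fintype.card ι * (2 * (q - 1)) := by
    refine (natDegree_prod_le _ _).trans ?_
    rw [← card_univ, ← smul_eq_mul, ← sum_const]
    refine sum_le_sum fun j _ => natDegree_pow_le.trans ?_
    rw [mul_comm]
    exact Nat.mul_le_mul (hp j) (hα j)
  have hdegL : L.natDegree ≤ Fintype.card ι * (2 * (b - 1)) := by
    refine (natDegree_prod_le _ _).trans ?_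
    rw [← card_univ, ← smul_eq_mul, ← sum_const]
    refine sum_le_sum fun j _ => natDegree_pow_le.trans ?_
    rw [mul_comm]
    have := hlo j
    exact Nat.mul_le_mul (hp j) (by omega)
  have := sum_eval_zero (∏ j, p j ^ (lo j + 2 ^ e * hi j)) (by
    intro j hj0 hj
    by_contra hne
    have hjd := (le_natDegree_of_ne_zero hne).trans hdegP
    rw [hP, coeff_mul] at hne
    obtain ⟨⟨j1, j2⟩, hmem, hne2⟩ := exists_ne_zero_of_sum_ne_zero hne
    rw [Finset.HasAntidiagonal.mem_antidiagonal] at hmem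
    simp only at hmem hne2
    have h1 : j1 ≤ Fintype.card ι * (2 * (b - 1)) :=
      (le_natDegree_of_ne_zero (left_ne_zero_of_mul hne2)).trans hdegL
    have h2 : 2 ^ e ∣ j2 := by
      have h3 := right_ne_zero_of_mul hne2
      rw [← map_iterateFrobenius_expand 2 H e, coeff_map, coeff_expand (by positivity)] at h3
      by_contra hnd
      rw [if_neg hnd] at h3
      exact h3 (map_zero _)
    obtain ⟨c, hc⟩ := hj
    rw [← hqdef] at hc
    have hc1 : 0 < c := by
      rcases Nat.eq_zero_or_pos c with h | h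
      · rw [h] at hc; omega
      · exact h
    have hc2 : c ≤ Fintype.card ι * 2 := by
      have : (q - 1) * c ≤ (q - 1) * (Fintype.card ι * 2) := by rw [← hc]; nlinarith
      exact Nat.le_of_mul_le_mul_left this (by omega)
    have h4 : j1 + c + j2 = q * c := by
      obtain ⟨q', hq'⟩ : ∃ q', q = q' + 1 := ⟨q - 1, by omega⟩
      rw [hq'] at hc ⊢
      simp only [Nat.add_sub_cancel] at hc
      nlinarith
    have h5 : 2 ^ e ∣ j1 + c := by
      have : 2 ^ e ∣ j1 + c + j2 := by rw [h4]; exact hq.mul_right _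
      exact (Nat.dvd_add_left h2).mp this
    have h6 := Nat.le_of_dvd (by omega) h5
    obtain ⟨b', rfl⟩ : ∃ b', b = b' + 1 := ⟨b - 1, by omega⟩
    simp only [Nat.add_sub_cancel] at h1
    nlinarith)
  simpa only [eval_prod, eval_pow] using this

end field

lemma digit_split (B T : ℕ) (hB : 0 < B) (f : Fin T → Fin B) (i : Fin T) (hi : (f i : ℕ) = 0) :
    ∃ lo hi : ℕ, lo < B ^ (i : ℕ) ∧ (finFunctionFinEquiv f : ℕ) = lo + B ^ ((i : ℕ) + 1) * hi := by
  classical
  rw [finFunctionFinEquiv_apply]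
  have key : ∀ n : ℕ, ∑ k ∈ univ.filter (fun k : Fin T => (k : ℕ) < n), (f k : ℕ) * B ^ (k : ℕ)
      < B ^ n := by
    intro n
    induction n with
    | zero => simp
    | succ n ih =>
      by_cases hn : n < T
      · have : univ.filter (fun k : Fin T => (k : ℕ) < n + 1)
            = insert ⟨n, hn⟩ (univ.filter (fun k : Fin T => (k : ℕ) < n)) := by
          ext k
          simp only [mem_filter, mem_univ, true_and, mem_insert, Fin.ext_iff]
          omega
        rw [this, sum_insert (by simp)]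
        have h1 := (f ⟨n, hn⟩).2
        simp only
        rw [pow_succ]
        have : ((f ⟨n, hn⟩ : ℕ) + 1) * B ^ n ≤ B * B ^ n := Nat.mul_le_mul_right _ h1
        nlinarith
      · have : univ.filter (fun k : Fin T => (k : ℕ) < n + 1)
            = univ.filter (fun k : Fin T => (k : ℕ) < n) := by
          ext k
          have := k.2
          simp only [mem_filter, mem_univ, true_and]
          omega
        rw [this]
        refine ih.trans_le (Nat.pow_le_pow_right hB (by omega))
  refine ⟨∑ k ∈ univ.filter (fun k : Fin T => (k : ℕ) < i), (f k : ℕ) * B ^ (k : ℕ),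
    ∑ k ∈ univ.filter (fun k : Fin T => ¬ (k : ℕ) < i), (f k : ℕ) * B ^ ((k : ℕ) - (i + 1)),
    key i, ?_⟩
  rw [← sum_filter_add_sum_filter_not univ (fun k : Fin T => (k : ℕ) < i), mul_sum]
  congr 1
  refine sum_congr rfl fun k hk => ?_
  rw [mem_filter] at hk
  by_cases hki : k = i
  · rw [hki, hi]; simp
  · have : (i : ℕ) + 1 ≤ k := by
      have : (k : ℕ) ≠ i := fun h => hki (Fin.ext h)
      omega
    obtain ⟨d, hd⟩ := Nat.exists_eq_add_of_le this
    rw [hd, Nat.add_sub_cancel_left]
    ring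

/-- functions whose sum along every curve vanishes -/
def Ker {E F : Type} [Fintype F] (c : E → F → E) (A : Type) [AddCommGroup A] : Type :=
  {x : E → A // ∀ u, ∑ a, x (c u a) = 0}

instance {E F : Type} [Fintype F] [Finite E] (c : E → F → E) (A : Type) [AddCommGroup A]
    [Finite A] : Finite (Ker c A) := by
  unfold Ker; infer_instance

lemma ker_field {F : Type} [Field F] [Fintype F] [CharP F 2] {ι : Type} [Fintype ι]
    (s T : ℕ) (hq : Fintype.card F = (2 ^ s) ^ T) (hB : 2 * Fintype.card ι < 2 ^ s)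
    (c : (ι → F) → F → (ι → F))
    (hc : ∀ u j, ∃ p : F[X], p.natDegree ≤ 2 ∧ ∀ a, c u a j = p.eval a) :
    Fintype.card F ^ (((2 ^ s) ^ Fintype.card ι) ^ T - ((2 ^ s) ^ Fintype.card ι - 1) ^ T)
      ≤ Nat.card (Ker c F) := by
  classical
  set B := 2 ^ s with hBdef
  have hB0 : 0 < B := by positivity
  haveI : NeZero B := ⟨hB0.ne'⟩
  let I := {δ : Fin T → ι → Fin B // ∃ i, δ i = 0}
  have hI : Fintype.card I = (B ^ Fintype.card ι) ^ T - (B ^ Fintype.card ι - 1) ^ T := by
    have h1 : Fintype.card {δ : Fin T → ι → Fin B // ¬ ∃ i, δ i = 0}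
        = (B ^ Fintype.card ι - 1) ^ T := by
      have e : {δ : Fin T → ι → Fin B // ¬ ∃ i, δ i = 0} ≃ (Fin T → {y : ι → Fin B // y ≠ 0}) :=
        (Equiv.subtypeEquivRight (fun δ => by simp)).trans
          (Equiv.subtypePiEquivPi (p := fun _ y => y ≠ 0))
      rw [Fintype.card_congr e, Fintype.card_fun, Fintype.card_subtype_compl]
      simp
    have h2 := Fintype.card_subtype_compl (fun δ : Fin T → ι → Fin B => ∃ i, δ i = 0)
    have h3 : Fintype.card (Fin T → ι → Fin B) = (B ^ Fintype.card ι) ^ T := by simp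
    have h4 := Fintype.card_subtype_le (fun δ : Fin T → ι → Fin B => ∃ i, δ i = 0)
    simp only [I]
    omega
  let α : I → ι →₀ ℕ := fun δ =>
    Finsupp.equivFunOnFinite.symm (fun j => (finFunctionFinEquiv (fun i => δ.1 i j) : ℕ))
  have hα : ∀ δ j, α δ j = (finFunctionFinEquiv (fun i => δ.1 i j) : ℕ) := fun δ j => rfl
  have hαinj : Function.Injective α := by
    intro δ δ' h
    apply Subtype.ext
    funext i j
    have h1 : α δ j = α δ' j := by rw [h]
    rw [hα, hα] at h1
    exact congrFun (finFunctionFinEquiv.injective (Fin.ext h1)) i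
  have hαle : ∀ δ j, α δ j ≤ Fintype.card F - 1 := by
    intro δ j
    rw [hα, hq]
    have := (finFunctionFinEquiv (fun i => δ.1 i j)).2
    omega
  have hmon : ∀ (δ : I) (u : ι → F), ∑ a, ∏ j, (c u a j) ^ (α δ j) = 0 := by
    intro δ u
    obtain ⟨i, hi⟩ := δ.2
    choose p hp hp2 using hc u
    have : ∀ j, ∃ lo hi : ℕ, lo < B ^ (i : ℕ) ∧ α δ j = lo + B ^ ((i : ℕ) + 1) * hi := by
      intro j
      rw [hα]
      exact digit_split B T hB0 _ i (by simp [hi])
    choose lo hi' hlo hsplit using this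
    have he : B ^ ((i : ℕ) + 1) = 2 ^ (s * ((i : ℕ) + 1)) := by rw [hBdef, ← pow_mul]
    have := curve_sum p hp (s * ((i : ℕ) + 1)) B (B ^ (i : ℕ)) (by rw [← he]; ring) hB
      (by rw [← he, hq]; exact pow_dvd_pow _ (by have := i.2; omega)) lo hi' hlo (by positivity)
      (fun j => by rw [← he, ← hsplit]; exact hαle δ j)
    simp only [hp2, hsplit, he]
    exact this
  let P : (I → F) → MvPolynomial ι F := fun k => ∑ δ, MvPolynomial.monomial (α δ) (k δ)
  have hPev : ∀ k v, MvPolynomial.eval v (P k) = ∑ δ, k δ * ∏ j, v j ^ (α δ j) := by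
    intro k v
    simp only [P, map_sum, MvPolynomial.eval_monomial]
    refine sum_congr rfl fun δ _ => ?_
    rw [Finsupp.prod_fintype _ _ (by simp)]
  let Φ : (I → F) → Ker c F := fun k => ⟨fun v => MvPolynomial.eval v (P k), by
    intro u
    simp only [hPev]
    rw [sum_comm]
    refine sum_eq_zero fun δ _ => ?_
    rw [← mul_sum, hmon, mul_zero]⟩
  have hΦ : Function.Injective Φ := by
    intro k k' h
    have h1 : ∀ v, MvPolynomial.eval v (P k - P k') = 0 := by
      intro v
      have := congrFun (congrArg Subtype.val h) v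
      simp only [Φ] at this
      rw [map_sub, this, sub_self]
    have hres : ∀ k, P k ∈ MvPolynomial.restrictDegree ι F (Fintype.card F - 1) := by
      intro k
      refine Submodule.sum_mem _ fun δ _ => ?_
      rw [MvPolynomial.mem_restrictDegree]
      intro m hm j
      have := MvPolynomial.support_monomial_subset hm
      rw [mem_singleton] at this
      rw [this]
      exact hαle δ j
    have h2 := MvPolynomial.eq_zero_of_eval_eq_zero ι F _ h1 (Submodule.sub_mem _ (hres k) (hres k'))
    have hco : ∀ k δ, MvPolynomial.coeff (α δ) (P k) = k δ := by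
      intro k δ
      simp only [P, MvPolynomial.coeff_sum, MvPolynomial.coeff_monomial]
      rw [sum_eq_single δ]
      · simp
      · intro δ' _ hne
        rw [if_neg (fun h => hne (hαinj h))]
      · simp
    funext δ
    rw [← hco k δ, ← hco k' δ, sub_eq_zero.mp h2]
  have := Nat.card_le_card_of_injective Φ hΦ
  rwa [Nat.card_eq_fintype_card, Fintype.card_fun, hI] at this

lemma ker_transfer {E F : Type} [Fintype F] [Finite E] (c : E → F → E) (A : Type) [AddCommGroup A]
    (n k g : ℕ) (hn : 0 < n) (φ : A →+ (Fin n → ZMod 2)) (hφ : Function.Injective φ)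
    (h : (2 ^ n) ^ g ≤ Nat.card (Ker c A)) :
    (2 ^ k) ^ g ≤ Nat.card (Ker c (Fin k → ZMod 2)) := by
  have h1 : Nat.card (Ker c A) ≤ Nat.card (Ker c (ZMod 2)) ^ n := by
    let Φ : Ker c A → (Fin n → Ker c (ZMod 2)) := fun x i => ⟨fun v => φ (x.1 v) i, by
      intro u
      have := congrArg (fun y => φ y i) (x.2 u)
      simpa [map_sum, Finset.sum_apply] using this⟩
    have : Function.Injective Φ := by
      intro x y hxy
      apply Subtype.ext
      funext v
      apply hφ
      funext i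
      exact congrFun (congrArg Subtype.val (congrFun hxy i)) v
    have := Nat.card_le_card_of_injective Φ this
    rwa [Nat.card_fun, Nat.card_fin] at this
  have h2 : 2 ^ g ≤ Nat.card (Ker c (ZMod 2)) := by
    have : (2 ^ g) ^ n ≤ Nat.card (Ker c (ZMod 2)) ^ n := by
      rw [← pow_mul, mul_comm, pow_mul]; exact h.trans h1
    exact (Nat.pow_le_pow_iff_left hn.ne').mp this
  have h3 : Nat.card (Ker c (ZMod 2)) ^ k ≤ Nat.card (Ker c (Fin k → ZMod 2)) := by
    let Φ : (Fin k → Ker c (ZMod 2)) → Ker c (Fin k → ZMod 2) := fun x => ⟨fun v i => (x i).1 v, by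
      intro u
      funext i
      simpa [Finset.sum_apply] using (x i).2 u⟩
    have : Function.Injective Φ := by
      intro x y hxy
      funext i
      apply Subtype.ext
      funext v
      exact congrFun (congrFun (congrArg Subtype.val hxy) v) i
    have := Nat.card_le_card_of_injective Φ this
    rwa [Nat.card_fun, Nat.card_fin] at this
  calc (2 ^ k) ^ g = (2 ^ g) ^ k := by rw [← pow_mul, mul_comm, pow_mul]
    _ ≤ _ := Nat.pow_le_pow_left h2 k
    _ ≤ _ := h3

lemma bern (a N : ℕ) (ha : 0 < a) : N * a ^ (N * a) < (a + 1) ^ (N * a) := by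
  have ha' : (0 : ℝ) < a := by exact_mod_cast ha
  have h := one_add_mul_le_pow (a := 1 / (a : ℝ)) (by
    have : (0 : ℝ) ≤ 1 / a := by positivity
    linarith) (N * a)
  have h2 : (1 + 1 / (a : ℝ)) = (a + 1) / a := by field_simp
  have h3 : ((N * a : ℕ) : ℝ) * (1 / a) = N := by push_cast; field_simp
  rw [h2, h3, div_pow, le_div_iff₀ (by positivity)] at h
  have h4 : (0 : ℝ) < (a : ℝ) ^ (N * a) := by positivity
  have : ((N * a ^ (N * a) : ℕ) : ℝ) < (((a + 1) ^ (N * a) : ℕ) : ℝ) := by
    push_cast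
    nlinarith
  exact_mod_cast this

/-- existence of shifts that are always hit -/
lemma exists_shift {E F V W : Type} [Fintype F] [Fintype E] [Fintype V] [AddCommGroup W] [Fintype W]
    (c : E → F → E) (ι : V → E) (hι : Function.Injective ι) (d : V → F → V)
    (hd : ∀ u a, ι (d u a) = c (ι u) a) (b g : ℕ) (hbg : Fintype.card E = b + g)
    (hW : 2 ≤ Fintype.card W) (hb : 0 < b)
    (hK : Fintype.card W ^ g ≤ Nat.card (Ker c W))
    (hV : b * (Fintype.card W * (Fintype.card W - 1)) ≤ Fintype.card V) :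
    ∃ β : V → W, ∀ x : V → W, ∃ u, ∑ a, x (d u a) = β u := by
  classical
  set Q := Fintype.card W with hQ
  let L : (E → W) →+ (E → W) :=
    { toFun := fun x u => ∑ a, x (c u a)
      map_zero' := by funext u; simp
      map_add' := by intro x y; funext u; simp [sum_add_distrib] }
  have hker : Nat.card L.ker = Nat.card (Ker c W) := by
    refine Nat.card_congr (Equiv.subtypeEquivRight fun x => ?_)
    rw [AddMonoidHom.mem_ker, funext_iff]
    rfl
  have hcard : Nat.card (E → W) = Nat.card L.range * Nat.card L.ker := by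
    rw [AddSubgroup.card_eq_card_quotient_mul_card_addSubgroup L.ker,
      Nat.card_congr (QuotientAddGroup.quotientKerEquivRange L).toEquiv]
  have hR : Nat.card L.range ≤ Q ^ b := by
    rw [Nat.card_eq_fintype_card, Fintype.card_fun, hbg, pow_add, hker] at hcard
    have h1 : Nat.card L.range * Q ^ g ≤ Q ^ b * Q ^ g := by
      rw [hcard]; exact Nat.mul_le_mul_left _ hK
    exact Nat.le_of_mul_le_mul_right h1 (by positivity)
  by_contra hcon
  push Not at hcon
  have hsub : (univ : Finset (V → W)) ⊆ (univ : Finset L.range).biUnion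
      (fun y => Fintype.piFinset (fun u => univ.erase (y.1 (ι u)))) := by
    intro β _
    obtain ⟨x, hx⟩ := hcon β
    rw [mem_biUnion]
    refine ⟨⟨L (Function.extend ι x 0), ⟨_, rfl⟩⟩, mem_univ _, ?_⟩
    rw [Fintype.mem_piFinset]
    intro u
    rw [mem_erase]
    refine ⟨fun h => hx u ?_, mem_univ _⟩
    rw [h]
    change _ = ∑ a, Function.extend ι x 0 (c (ι u) a)
    refine sum_congr rfl fun a _ => ?_
    rw [← hd, hι.extend_apply]
  have h1 := (card_le_card hsub).trans card_biUnion_le
  simp only [Fintype.card_piFinset, card_erase_of_mem (mem_univ _), card_univ, prod_const,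
    sum_const, smul_eq_mul, Fintype.card_fun] at h1
  rw [← Nat.card_eq_fintype_card (α := L.range), ← hQ] at h1
  obtain ⟨a, ha⟩ : ∃ a, Q = a + 1 := ⟨Q - 1, by omega⟩
  have ha0 : 0 < a := by omega
  obtain ⟨r, hr⟩ := Nat.exists_eq_add_of_le hV
  have h2 := bern a Q ha0
  rw [hr] at h1
  have ha' : Q - 1 = a := by omega
  rw [ha'] at h1
  rw [← ha] at h2
  have h3 : (Q * a ^ (Q * a)) ^ b < (Q ^ (Q * a)) ^ b := Nat.pow_lt_pow_left h2 hb.ne'
  have h4 : a ^ r ≤ Q ^ r := Nat.pow_le_pow_left (by omega) r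
  have h5 : (Q * a ^ (Q * a)) ^ b * a ^ r < (Q ^ (Q * a)) ^ b * Q ^ r :=
    Nat.mul_lt_mul_of_lt_of_le h3 h4 (by positivity)
  have h6 : Nat.card L.range * a ^ (b * (Q * a) + r) ≤ Q ^ b * a ^ (b * (Q * a) + r) :=
    Nat.mul_le_mul_right _ hR
  have e1 : (Q * a ^ (Q * a)) ^ b * a ^ r = Q ^ b * a ^ (b * (Q * a) + r) := by
    rw [mul_pow, ← pow_mul, pow_add, mul_comm (Q * a) b, mul_assoc]
  have e2 : (Q ^ (Q * a)) ^ b * Q ^ r = Q ^ (b * (Q * a) + r) := by
    rw [← pow_mul, pow_add, mul_comm (Q * a) b]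
  omega

end Pool.Agent.H.Hat
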