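import Mathlib
import Pool.Agent.H.MP_85f470_co.A

set_option autoImplicit false

namespace Pool.Agent.H.Hat

open Finset Matrix

section grp
variable {F : Type} [Field F] {K : ℕ}

/-- shift matrix on even or odd positions -/
def S (F : Type) [Field F] (K : ℕ) (r : Bool) : Matrix (Fin K) (Fin K) F :=
  Matrix.of fun i j => if (j : ℕ) = i + 1 ∧ (i : ℕ) % 2 = r.toNat then 1 else 0

/-- entries of a vector, extended by zero -/
def ev (v : Fin K → F) (n : ℕ) : F := if h : n < K then v ⟨n, h⟩ else 0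

lemma S_sq (r : Bool) : S F K r * S F K r = 0 := by
  ext i k
  rw [mul_apply, Matrix.zero_apply]
  refine sum_eq_zero fun j _ => ?_
  simp only [S, of_apply]
  split_ifs with h1 h2
  · omega
  all_goals simp

lemma ev_S (v : Fin K → F) (r : Bool) (n : ℕ) :
    ev (v ᵥ* S F K r) (n + 1) = if n + 1 < K ∧ n % 2 = r.toNat then ev v n else 0 := by
  unfold ev
  by_cases h : n + 1 < K
  · rw [dif_pos h, dif_pos (by omega : n < K)]
    simp only [vecMul, dotProduct, S, of_apply]
    rw [sum_eq_single ⟨n, by omega⟩]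
    · by_cases h2 : n % 2 = r.toNat <;> simp [h, h2]
    · intro b _ hb
      rw [if_neg, mul_zero]
      rintro ⟨h1, -⟩
      exact hb (Fin.ext (by simp only at h1 ⊢; omega))
    · simp
  · rw [dif_neg h, if_neg (fun h' => h h'.1)]

/-- elementary unipotent matrices -/
def el (K : ℕ) (r : Bool) (a : F) : Matrix (Fin K) (Fin K) F := 1 + a • S F K r

lemma el_mul (r : Bool) (a b : F) : el K r a * el K r b = el K r (a + b) := by
  simp only [el, add_mul, mul_add, one_mul, mul_one, Matrix.smul_mul, Matrix.mul_smul, S_sq,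
    smul_zero, add_zero, add_smul]
  abel

lemma el_zero (r : Bool) : el K r (0 : F) = 1 := by simp [el]

lemma ev_el (v : Fin K → F) (r : Bool) (a : F) (n : ℕ) :
    ev (v ᵥ* el K r a) n = ev v n + a * ev (v ᵥ* S F K r) n := by
  unfold ev
  split_ifs with h
  · simp [el, vecMul_add, vecMul_smul]
  · simp

/-- top nonzero position -/
def Top (v : Fin K → F) (t : ℕ) : Prop := ev v t ≠ 0 ∧ ∀ n, t < n → ev v n = 0

lemma top_step {v : Fin K → F} {t : ℕ} (h : Top v t) (r : Bool) (hr : t % 2 = r.toNat) {a : F}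
    (ha : a ≠ 0) (ht : t + 1 < K) : Top (v ᵥ* el K r a) (t + 1) := by
  constructor
  · rw [ev_el, ev_S, if_pos ⟨ht, hr⟩, h.2 _ (by omega), zero_add]
    exact mul_ne_zero ha h.1
  · intro n hn
    obtain ⟨m, rfl⟩ : ∃ m, n = m + 1 := ⟨n - 1, by omega⟩
    rw [ev_el, ev_S, h.2 _ (by omega), h.2 m (by omega)]
    simp

/-- the elementary matrices as units -/
def eu (K : ℕ) (r : Bool) (a : F) : GL (Fin K) F :=
  ⟨el K r a, el K r (-a), by rw [el_mul, add_neg_cancel, el_zero],
    by rw [el_mul, neg_add_cancel, el_zero]⟩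

/-- the steps of the Cayley graph -/
def st (K : ℕ) (r : Bool) (a : F) : GL (Fin K) F := eu K r a * eu K (!r) a

lemma st_val (r : Bool) (a : F) : (st K r a).val = el K r a * el K (!r) a := rfl

lemma st_inv (r : Bool) (a : F) : st K r a * st K (!r) (-a) = 1 := by
  apply Units.ext
  rw [Units.val_mul, st_val, st_val, Bool.not_not, Matrix.mul_assoc, ← Matrix.mul_assoc (el K (!r) a),
    el_mul, add_neg_cancel, el_zero, Matrix.one_mul, el_mul, add_neg_cancel, el_zero]
  rfl

lemma walk_ne (u : ℕ → GL (Fin K) F) (k : ℕ) (hk : 0 < k) (hK : 2 * k + 2 < K)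
    (step : ∀ i, i < k → ∃ r c, c ≠ 0 ∧ u (i + 1) = u i * st K r c)
    (nb : ∀ i, i + 2 ≤ k → u (i + 2) ≠ u i) : u k ≠ u 0 := by
  choose! r c hc hu using step
  have hr0 : (r 0).toNat < 2 := by cases r 0 <;> simp
  let v0 : Fin K → F := Pi.single ⟨(r 0).toNat, by omega⟩ 1
  have hv0 : Top v0 (r 0).toNat := by
    constructor
    · unfold ev
      rw [dif_pos (by omega)]
      simp [v0]
    · intro n hn
      unfold ev
      split_ifs with h
      · simp only [v0]
        rw [Pi.single_eq_of_ne]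
        intro h'
        have := congrArg Fin.val h'
        simp only at this
        omega
      · rfl
  let z : ℕ → Fin K → F := fun i => v0 ᵥ* ((u 0)⁻¹ * u i).val
  have hz0 : z 0 = v0 := by simp [z]
  have hz : ∀ i, i < k → z (i + 1) = (z i ᵥ* el K (r i) (c i)) ᵥ* el K (!(r i)) (c i) := by
    intro i hi
    simp only [z]
    rw [hu i hi, ← mul_assoc, Units.val_mul, st_val, vecMul_vecMul, vecMul_vecMul]
  have hnot : ∀ (b : Bool) (t : ℕ), t % 2 = b.toNat → (t + 1) % 2 = (!b).toNat := by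
    intro b t h
    cases b <;> simp at h ⊢ <;> omega
  have inv : ∀ i, i < k → ∃ (y : Fin K → F) (t : ℕ), z (i + 1) = y ᵥ* el K (!(r i)) (c i) ∧
      Top y t ∧ t % 2 = (!(r i)).toNat ∧ (r 0).toNat < t ∧ t ≤ 2 * i + 2 := by
    intro i
    induction i with
    | zero =>
      intro h0
      refine ⟨v0 ᵥ* el K (r 0) (c 0), (r 0).toNat + 1, by rw [hz 0 h0, hz0],
        top_step hv0 _ (by omega) (hc 0 h0) (by omega), hnot _ _ (by omega), by omega, by omega⟩
    | succ i ih =>
      intro hi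
      obtain ⟨y, t, hy, ht, hp, hl, hu'⟩ := ih (by omega)
      by_cases hrr : r (i + 1) = r i
      · refine ⟨z (i + 1) ᵥ* el K (r (i + 1)) (c (i + 1)), t + 1 + 1, hz _ hi, ?_, ?_, by omega,
          by omega⟩
        · rw [hy]
          refine top_step (top_step ht _ hp (hc i (by omega)) (by omega)) _ ?_ (hc _ hi) (by omega)
          rw [hrr]
          simpa using hnot _ _ hp
        · rw [hrr]; omega
      · have hrr' : r (i + 1) = !(r i) := by
          cases h1 : r (i + 1) <;> cases h2 : r i <;> simp_all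
        have hcc : c i + c (i + 1) ≠ 0 := by
          intro h0
          apply nb i (by omega)
          rw [hu (i + 1) hi, hu i (by omega), mul_assoc, hrr', eq_neg_of_add_eq_zero_right h0,
            st_inv, mul_one]
        refine ⟨z (i + 1) ᵥ* el K (r (i + 1)) (c (i + 1)), t + 1, hz _ hi, ?_, ?_, by omega,
          by omega⟩
        · rw [hy, hrr', vecMul_vecMul, el_mul]
          exact top_step ht _ hp hcc (by omega)
        · rw [hrr']; exact hnot _ _ hp
  intro hk0
  obtain ⟨i, rfl⟩ : ∃ i, k = i + 1 := ⟨k - 1, by omega⟩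
  obtain ⟨y, t, hy, ht, hp, hl, hu'⟩ := inv i (by omega)
  have h1 := top_step ht _ hp (hc i (by omega)) (by omega)
  rw [← hy] at h1
  have h2 : z (i + 1) = v0 := by simp [z, hk0]
  rw [h2] at h1
  exact h1.1 (hv0.2 _ (by omega))

lemma st_ne (hK : 4 < K) (u : GL (Fin K) F) (r : Bool) {c : F} (hc : c ≠ 0) :
    u * st K r c ≠ u := by
  have := walk_ne (fun i => if i = 0 then u else u * st K r c) 1 one_pos (by omega)
    (by
      intro i hi
      obtain rfl : i = 0 := by omega
      exact ⟨r, c, hc, by simp⟩) (by intro i hi; omega)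
  simpa using this

/-- the Cayley graph -/
def cay (F : Type) [Field F] (K : ℕ) : SimpleGraph (GL (Fin K) F) where
  Adj u v := u ≠ v ∧ ∃ r c, c ≠ 0 ∧ v = u * st K r c
  symm := ⟨by
    rintro u v ⟨h, r, c, hc, rfl⟩
    exact ⟨h.symm, !r, -c, neg_ne_zero.mpr hc, by rw [mul_assoc, st_inv, mul_one]⟩⟩
  loopless := ⟨fun u h => h.1 rfl⟩

lemma cay_girth (g : ℕ) (hK : 2 * g + 2 < K) : (g : ℕ∞) ≤ (cay F K).egirth := by
  rw [SimpleGraph.le_egirth]
  intro a w hw
  by_contra hlt
  have hlt' : w.length < g := by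
    push Not at hlt
    exact_mod_cast hlt
  have h3 := hw.three_le_length
  refine walk_ne w.getVert w.length (by omega) (by omega) ?_ ?_ (by simp)
  · intro i hi
    exact (w.adj_getVert_succ hi).2
  · intro i hi
    have := hw.getVert_sub_one_ne_getVert_add_one (i := i + 1) (by omega)
    simpa using this.symm

end grp

lemma card_GL_ge (F : Type) [Field F] [Fintype F] (K : ℕ) :
    Fintype.card F ^ (K * K) ≤ 2 ^ K * Nat.card (GL (Fin K) F) := by
  rw [Matrix.card_GL_field]
  have hq : 2 ≤ Fintype.card F := Fintype.one_lt_card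
  calc Fintype.card F ^ (K * K) = ∏ _i : Fin K, Fintype.card F ^ K := by simp [pow_mul]
    _ ≤ ∏ i : Fin K, (2 * (Fintype.card F ^ K - Fintype.card F ^ (i : ℕ))) := by
      refine prod_le_prod' fun i _ => ?_
      have h1 : Fintype.card F ^ ((i : ℕ) + 1) ≤ Fintype.card F ^ K :=
        Nat.pow_le_pow_right (by omega) i.2
      have h2 : Fintype.card F ^ (i : ℕ) * 2 ≤ Fintype.card F ^ ((i : ℕ) + 1) := by
        rw [pow_succ]; exact Nat.mul_le_mul_left _ hq
      omega
    _ = _ := by rw [prod_mul_distrib]; simp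

theorem main (g C : ℕ) : ∃ n : ℕ, ∃ G : SimpleGraph (Fin n),
      (g : ℕ∞) ≤ G.egirth ∧
      ∃ q : ℕ, C ≤ q ∧
        ∃ f : Fin n → (Fin n → Fin q) → Fin q,
          (∀ v : Fin n, ∀ c c' : Fin n → Fin q,
              (∀ u : Fin n, G.Adj v u → c u = c' u) → f v c = f v c') ∧
          ∀ c : Fin n → Fin q, ∃ v : Fin n, f v c = c v := by
  classical
  haveI : Fact (Nat.Prime 2) := ⟨Nat.prime_two⟩
  obtain ⟨K, hK⟩ : ∃ K, K = 2 * g + 5 := ⟨_, rfl⟩
  obtain ⟨k, hk⟩ : ∃ k, k = C + 1 := ⟨_, rfl⟩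
  obtain ⟨m, hm⟩ : ∃ m, m = K * K := ⟨_, rfl⟩
  have hm0 : 0 < m := by rw [hm]; exact Nat.mul_pos (by omega) (by omega)
  obtain ⟨s, hs⟩ : ∃ s, s = 2 * m := ⟨_, rfl⟩
  have hB : 2 * m < 2 ^ s := by rw [hs]; exact Nat.lt_two_pow_self
  obtain ⟨Q, hQ⟩ : ∃ Q, Q = 2 ^ k := ⟨_, rfl⟩
  have hQk : k < Q := by rw [hQ]; exact Nat.lt_two_pow_self
  have hQ2 : 2 ≤ Q := by omega
  have hM : 2 ≤ (2 ^ s) ^ m := by
    have : 2 ^ s ≤ (2 ^ s) ^ m := Nat.le_self_pow hm0.ne' _
    omega
  obtain ⟨a, ha⟩ : ∃ a, (2 ^ s) ^ m = a + 1 := ⟨(2 ^ s) ^ m - 1, by omega⟩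
  have ha0 : 0 < a := by omega
  obtain ⟨N, hN⟩ : ∃ N, N = 2 ^ K * (Q * (Q - 1)) := ⟨_, rfl⟩
  have hN0 : 0 < N := by
    rw [hN]; exact Nat.mul_pos (by positivity) (Nat.mul_pos (by omega) (by omega))
  obtain ⟨T, hT⟩ : ∃ T, T = N * a := ⟨_, rfl⟩
  have hT0 : 0 < T := by rw [hT]; exact Nat.mul_pos hN0 ha0
  have hsT : s * T ≠ 0 := Nat.mul_ne_zero (by omega) hT0.ne'
  let F := GaloisField 2 (s * T)
  letI : Fintype F := Fintype.ofFinite F
  have hF : Fintype.card F = (2 ^ s) ^ T := by
    rw [← Nat.card_eq_fintype_card, GaloisField.card 2 (s * T) hsT, pow_mul]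
  let W := Fin k → ZMod 2
  have hW : Fintype.card W = Q := by simp [W, hQ]
  let ι := Fin K × Fin K
  have hι : Fintype.card ι = m := by simp [ι, hm]
  let c : (ι → F) → F → (ι → F) := fun u a j =>
    ((Matrix.of fun i i' => u (i, i')) * (el K false a * el K true a)) j.1 j.2
  have hc : ∀ u j, ∃ p : Polynomial F, p.natDegree ≤ 2 ∧ ∀ a, c u a j = p.eval a := by
    intro u j
    set U : Matrix (Fin K) (Fin K) F := Matrix.of fun i i' => u (i, i') with hU
    refine ⟨Polynomial.C ((U * (S F K false * S F K true)) j.1 j.2) * Polynomial.X ^ 2 +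
      Polynomial.C ((U * (S F K false + S F K true)) j.1 j.2) * Polynomial.X +
      Polynomial.C (U j.1 j.2), Polynomial.natDegree_quadratic_le, fun a => ?_⟩
    have : U * (el K false a * el K true a) = (a ^ 2) • (U * (S F K false * S F K true)) +
        a • (U * (S F K false + S F K true)) + U := by
      simp only [el, add_mul, mul_add, one_mul, mul_one, Matrix.smul_mul, Matrix.mul_smul,
        smul_add, smul_smul, sq]
      abel
    simp only [c]
    rw [← hU, this]
    simp only [Matrix.add_apply, Matrix.smul_apply, smul_eq_mul, Polynomial.eval_add,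
      Polynomial.eval_mul, Polynomial.eval_C, Polynomial.eval_pow, Polynomial.eval_X]
    ring
  have h1 := ker_field s T hF (by rw [hι]; exact hB) c hc
  rw [hι, ha, Nat.add_sub_cancel, hF, ← pow_mul 2 s T] at h1
  have hfr : Module.finrank (ZMod 2) F = s * T := GaloisField.finrank 2 hsT
  let φ := (Module.finBasisOfFinrankEq (ZMod 2) F hfr).equivFun
  have h2 := ker_transfer c F (s * T) k _ (Nat.pos_of_ne_zero hsT) φ.toLinearMap.toAddMonoidHom
    φ.injective h1
  let V := GL (Fin K) F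
  letI : Fintype V := Fintype.ofFinite V
  have hE : Fintype.card (ι → F) = (a + 1) ^ T := by
    rw [Fintype.card_fun, hι, hF, ← ha, ← pow_mul, ← pow_mul, ← pow_mul, ← pow_mul]
    congr 1; ring
  have hV : a ^ T * (Q * (Q - 1)) ≤ Fintype.card V := by
    have h3 := card_GL_ge F K
    rw [← hm, hF, ← pow_mul (2 ^ s), mul_comm T m, pow_mul, ha, Nat.card_eq_fintype_card] at h3
    have h4 := bern a N ha0
    rw [← hT] at h4
    have h5 : 2 ^ K * (a ^ T * (Q * (Q - 1))) ≤ 2 ^ K * Fintype.card V := by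
      calc 2 ^ K * (a ^ T * (Q * (Q - 1))) = N * a ^ T := by rw [hN]; ring
        _ ≤ _ := h4.le.trans h3
    exact Nat.le_of_mul_le_mul_left h5 (by positivity)
  obtain ⟨β, hβ⟩ := exists_shift (W := W) c (fun (u : V) (j : ι) => u.val j.1 j.2)
    (by
      intro u v h
      apply Units.ext
      ext i j
      exact congrFun h (i, j))
    (fun u a => u * st K false a) (by intro u a; rfl) (a ^ T) ((a + 1) ^ T - a ^ T)
    (by
      have : a ^ T ≤ (a + 1) ^ T := Nat.pow_le_pow_left (by omega) T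
      omega) (by omega) (by positivity) (by rw [hW, hQ]; exact h2) (by rw [hW]; exact hV)
  let e : V ≃ Fin (Fintype.card V) := Fintype.equivFin V
  let ψ : W ≃ Fin Q := Fintype.equivFinOfCardEq hW
  refine ⟨Fintype.card V, (cay F K).comap e.symm, ?_, Q, by omega,
    fun v x => ψ (β (e.symm v) - ∑ a ∈ univ.erase (0 : F), ψ.symm (x (e (e.symm v * st K false a)))),
    ?_, ?_⟩
  · have h3 := cay_girth (F := F) (K := K) g (by omega)
    refine h3.trans (SimpleGraph.IsContained.egirth_le ⟨⟨⟨e.symm, fun h => h⟩, e.symm.injective⟩⟩)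
  · intro v x x' hx
    simp only
    congr 2
    refine sum_congr rfl fun a ha => ?_
    rw [hx]
    rw [SimpleGraph.comap_adj, Equiv.symm_apply_apply]
    have ha' := (mem_erase.mp ha).1
    exact ⟨(st_ne (by omega) _ _ ha').symm, false, a, ha', rfl⟩
  · intro x
    obtain ⟨u, hu⟩ := hβ (fun v => ψ.symm (x (e v)))
    refine ⟨e u, ?_⟩
    simp only [Equiv.symm_apply_apply]
    rw [← hu, ← add_sum_erase univ _ (mem_univ (0 : F)), add_sub_cancel_right]
    have : st K false (0 : F) = 1 := by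
      apply Units.ext
      rw [st_val, el_zero, el_zero, Matrix.one_mul]
      rfl
    rw [this, mul_one, Equiv.apply_symm_apply]

end Pool.Agent.H.Hat
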