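import Mathlib

set_option autoImplicit false

namespace Pool.Agent.H.Hat

open Finset Classical

lemma leaf {X : Type} [Finite X] [Nonempty X] (H : SimpleGraph X) (h : H.IsAcyclic) :
    ∃ w, ∀ y y', H.Adj w y → H.Adj w y' → y = y' := by
  obtain ⟨v0⟩ := ‹Nonempty X›
  let c := H.connectedComponentMk v0
  have hT := h.isTree_connectedComponent c
  have hv0 : v0 ∈ c := rfl
  rcases subsingleton_or_nontrivial c with hs | hn
  · refine ⟨v0, fun y y' hy _ => ?_⟩
    have := Subsingleton.elim (⟨v0, hv0⟩ : c) ⟨y, c.mem_supp_of_adj_mem_supp hv0 hy⟩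
    exact absurd (congrArg Subtype.val this) hy.ne
  · letI : Fintype c := Fintype.ofFinite c
    obtain ⟨v, hv⟩ := hT.exists_vert_degree_one_of_nontrivial
    obtain ⟨u, -, hu⟩ := SimpleGraph.degree_eq_one_iff_existsUnique_adj.mp hv
    refine ⟨v.1, fun y y' hy hy' => ?_⟩
    have h1 := hu ⟨y, c.mem_supp_of_adj_mem_supp v.2 hy⟩ hy
    have h2 := hu ⟨y', c.mem_supp_of_adj_mem_supp v.2 hy'⟩ hy'
    exact congrArg Subtype.val (h1.trans h2.symm)

variable {V : Type} [Fintype V]

/-- the adversary wins on the set U with q colours, whatever is outside -/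
def Lose (G : SimpleGraph V) (U : Finset V) (q : ℕ) : Prop :=
  ∀ f : V → (V → ℕ) → ℕ, (∀ v c c', (∀ u, G.Adj v u → c u = c' u) → f v c = f v c') →
    ∀ c0 : V → ℕ, ∃ c : V → ℕ, (∀ v, v ∉ U → c v = c0 v) ∧ ∀ v ∈ U, c v < q ∧ c v ≠ f v c

omit [Fintype V] in
lemma lose_empty (G : SimpleGraph V) (q : ℕ) : Lose G ∅ q :=
  fun _ _ c0 => ⟨c0, fun _ _ => rfl, by simp⟩

/-- growth of the number of colours -/
def nxt (d q : ℕ) : ℕ := (q + 1) ^ d + q + 1

lemma lose_indep (G : SimpleGraph V) (A B : Finset V) (d q : ℕ) (hAB : Disjoint A B)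
    (hA : ∀ a ∈ A, ∀ a' ∈ A, ¬ G.Adj a a') (hd : ∀ a ∈ A, (B.filter (G.Adj a)).card ≤ d)
    (hB : Lose G B q) : Lose G (A ∪ B) (nxt d q) := by
  intro f hf c0
  have key : ∀ v, ∃ x, v ∈ A → x < nxt d q ∧ x ∉ (Fintype.piFinset
      (fun u => if u ∈ B.filter (G.Adj v) then range q else {c0 u})).image (f v) := by
    intro v
    by_cases hv : v ∈ A
    · have h1 : ((Fintype.piFinset
          (fun u => if u ∈ B.filter (G.Adj v) then range q else {c0 u})).image (f v)).card
          < (range (nxt d q)).card := by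
        refine card_image_le.trans_lt ?_
        rw [Fintype.card_piFinset, card_range]
        have : ∏ u, (if u ∈ B.filter (G.Adj v) then range q else {c0 u}).card
            = q ^ (B.filter (G.Adj v)).card := by
          simp only [apply_ite card, card_range, card_singleton]
          rw [prod_ite_mem, univ_inter, prod_const]
        rw [this]
        have h2 : q ^ (B.filter (G.Adj v)).card ≤ (q + 1) ^ d :=
          (Nat.pow_le_pow_left (by omega) _).trans (Nat.pow_le_pow_right (by omega) (hd v hv))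
        unfold nxt
        omega
      obtain ⟨x, hx, hx2⟩ := exists_mem_notMem_of_card_lt_card h1
      exact ⟨x, fun _ => ⟨mem_range.mp hx, hx2⟩⟩
    · exact ⟨0, fun h => absurd h hv⟩
  choose c1 hc1 using key
  obtain ⟨c, hc, hc2⟩ := hB f hf (fun v => if v ∈ A then c1 v else c0 v)
  refine ⟨c, fun v hv => ?_, fun v hv => ?_⟩
  · rw [mem_union, not_or] at hv
    rw [hc v hv.2, if_neg hv.1]
  · rcases mem_union.mp hv with hv | hv
    · have hvB : v ∉ B := disjoint_left.mp hAB hv
      rw [hc v hvB, if_pos hv]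
      refine ⟨(hc1 v hv).1, fun h => (hc1 v hv).2 ?_⟩
      rw [h, mem_image]
      refine ⟨fun u => if u ∈ B.filter (G.Adj v) then c u else c0 u, ?_, ?_⟩
      · rw [Fintype.mem_piFinset]
        intro u
        split_ifs with hu
        · exact mem_range.mpr (hc2 u (mem_filter.mp hu).1).1
        · exact mem_singleton_self _
      · apply hf
        intro u hu
        split_ifs with hu2
        · rfl
        · have huB : u ∉ B := fun h => hu2 (mem_filter.mpr ⟨h, hu⟩)
          rw [hc u huB, if_neg (fun h => hA v hv u h hu)]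
    · refine ⟨(hc2 v hv).1.trans_le ?_, (hc2 v hv).2⟩
      unfold nxt
      omega

lemma lose_low (G : SimpleGraph V) (B : Finset V) (d q : ℕ) (hB : Lose G B q) (j : ℕ) :
    ∀ L : Finset V, Disjoint L B → (∀ v ∈ L, ((L ∪ B).filter (G.Adj v)).card ≤ d) →
      (∀ v ∈ L, (L.filter (G.Adj v)).card < j) → Lose G (L ∪ B) ((nxt d)^[j] q) := by
  induction j with
  | zero =>
    intro L _ _ h
    have : L = ∅ := eq_empty_of_forall_notMem fun v hv => by simpa using h v hv
    simpa [this] using hB
  | succ j ih =>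
    intro L hLB hd hj
    obtain ⟨A, hA, hmax⟩ := exists_max_image
      (L.powerset.filter (fun A => ∀ a ∈ A, ∀ a' ∈ A, ¬ G.Adj a a')) card ⟨∅, by simp⟩
    rw [mem_filter, mem_powerset] at hA
    have hdom : ∀ v ∈ L \ A, ∃ a ∈ A, G.Adj v a := by
      intro v hv
      rw [mem_sdiff] at hv
      by_contra hno
      push Not at hno
      have := hmax (insert v A) (by
        rw [mem_filter, mem_powerset]
        refine ⟨insert_subset hv.1 hA.1, ?_⟩
        intro a ha a' ha'
        rcases mem_insert.mp ha with h1 | h1 <;> rcases mem_insert.mp ha' with h2 | h2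
        · rw [h1, h2]; exact G.irrefl
        · rw [h1]; exact hno a' h2
        · rw [h2]; exact fun h => hno a h1 h.symm
        · exact hA.2 a h1 a' h2)
      rw [card_insert_of_notMem hv.2] at this
      omega
    have h1 := ih (L \ A) (hLB.mono_left sdiff_subset)
      (fun v hv => (card_le_card (filter_subset_filter _
        (union_subset_union_left sdiff_subset))).trans (hd v (mem_sdiff.mp hv).1))
      (by
        intro v hv
        obtain ⟨a, ha, hva⟩ := hdom v hv
        have : ((L \ A).filter (G.Adj v)).card < (L.filter (G.Adj v)).card := by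
          apply card_lt_card
          refine ⟨filter_subset_filter _ sdiff_subset, fun h => ?_⟩
          have := h (mem_filter.mpr ⟨hA.1 ha, hva⟩)
          exact (mem_sdiff.mp (mem_filter.mp this).1).2 ha
        have := hj v (mem_sdiff.mp hv).1
        omega)
    have h2 := lose_indep G A (L \ A ∪ B) d _
      (disjoint_union_right.mpr ⟨disjoint_sdiff, hLB.mono_left hA.1⟩) hA.2
      (fun v hv => (card_le_card (filter_subset_filter _
        (union_subset_union_left sdiff_subset))).trans (hd v (hA.1 hv))) h1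
    rw [← union_assoc, union_sdiff_of_subset hA.1] at h2
    rw [Function.iterate_succ_apply']
    exact h2

lemma forest {W : Type} (H : SimpleGraph W) (hH : H.IsAcyclic) (n : ℕ) :
    ∀ S : Finset W, S.card = n → ∃ B : ℕ, ∀ (V : Type) [Fintype V] (G : SimpleGraph V)
      (U : Finset V), (¬ ∃ φ : W → V, (∀ w ∈ S, φ w ∈ U) ∧ Set.InjOn φ S ∧
        ∀ w ∈ S, ∀ w' ∈ S, H.Adj w w' → G.Adj (φ w) (φ w')) → Lose G U B := by
  have small : ∀ S : Finset W, S.card ≤ 1 → ∀ (V : Type) [Fintype V] (G : SimpleGraph V)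
      (U : Finset V), (¬ ∃ φ : W → V, (∀ w ∈ S, φ w ∈ U) ∧ Set.InjOn φ S ∧
        ∀ w ∈ S, ∀ w' ∈ S, H.Adj w w' → G.Adj (φ w) (φ w')) → Lose G U 0 := by
    intro S hS V _ G U h
    rcases U.eq_empty_or_nonempty with rfl | ⟨u, hu⟩
    · exact lose_empty G 0
    · rw [card_le_one] at hS
      exact absurd ⟨fun _ => u, fun _ _ => hu, fun a ha b hb _ => hS a ha b hb,
        fun a ha b hb hab => absurd (hS a ha b hb) hab.ne⟩ h
  induction n with
  | zero => exact fun S hS => ⟨0, small S (by omega)⟩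
  | succ n ih =>
    intro S hS
    rcases Nat.eq_zero_or_pos n with hn | hn
    · exact ⟨0, small S (by omega)⟩
    haveI : Nonempty (S : Set W) := by
      obtain ⟨x, hx⟩ := card_pos.mp (by omega : 0 < S.card)
      exact ⟨⟨x, hx⟩⟩
    obtain ⟨⟨w, hw⟩, hleaf⟩ := leaf (H.induce (S : Set W)) (hH.induce _)
    have hw' : w ∈ S := hw
    have hcard : (S.erase w).card = n := by rw [card_erase_of_mem hw']; omega
    obtain ⟨p, hp, hpu⟩ : ∃ p ∈ S.erase w, ∀ y ∈ S, H.Adj w y → y = p := by
      by_cases h : ∃ y ∈ S, H.Adj w y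
      · obtain ⟨y, hy, hwy⟩ := h
        refine ⟨y, mem_erase.mpr ⟨hwy.ne.symm, hy⟩, fun y' hy' h' => ?_⟩
        exact congrArg Subtype.val (hleaf ⟨y', hy'⟩ ⟨y, hy⟩ h' hwy)
      · obtain ⟨y, hy⟩ := card_pos.mp (by omega : 0 < (S.erase w).card)
        exact ⟨y, hy, fun y' hy' h' => absurd ⟨y', hy', h'⟩ h⟩
    obtain ⟨B, hB⟩ := ih (S.erase w) hcard
    refine ⟨(nxt n)^[n + 1] B, fun V _ G U h => ?_⟩
    set Hi := U.filter (fun v => n < (U.filter (G.Adj v)).card) with hHi
    have hsub : Hi ⊆ U := filter_subset _ _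
    have h1 : Lose G Hi B := by
      apply hB
      rintro ⟨φ, hφ1, hφ2, hφ3⟩
      have h2 : ((S.erase w).image φ).card < (U.filter (G.Adj (φ p))).card :=
        (card_image_le.trans hcard.le).trans_lt (mem_filter.mp (hφ1 p hp)).2
      obtain ⟨x, hx, hx2⟩ := exists_mem_notMem_of_card_lt_card h2
      rw [mem_filter] at hx
      have hup : ∀ y, y ≠ w → Function.update φ w x y = φ y := fun y hy =>
        Function.update_of_ne hy _ _
      apply h
      refine ⟨Function.update φ w x, ?_, ?_, ?_⟩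
      · intro y hy
        by_cases hyw : y = w
        · rw [hyw, Function.update_self]; exact hx.1
        · rw [hup y hyw]; exact hsub (hφ1 y (mem_erase.mpr ⟨hyw, hy⟩))
      · intro y hy y' hy' hyy
        by_cases hyw : y = w <;> by_cases hyw' : y' = w
        · rw [hyw, hyw']
        · rw [hyw, Function.update_self, hup y' hyw'] at hyy
          exact absurd (mem_image.mpr ⟨y', mem_erase.mpr ⟨hyw', hy'⟩, hyy.symm⟩) hx2
        · rw [hyw', Function.update_self, hup y hyw] at hyy
          exact absurd (mem_image.mpr ⟨y, mem_erase.mpr ⟨hyw, hy⟩, hyy⟩) hx2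
        · rw [hup y hyw, hup y' hyw'] at hyy
          exact hφ2 (mem_coe.mpr (mem_erase.mpr ⟨hyw, hy⟩))
            (mem_coe.mpr (mem_erase.mpr ⟨hyw', hy'⟩)) hyy
      · intro y hy y' hy' hyy
        have hpw : p ≠ w := (mem_erase.mp hp).1
        by_cases hyw : y = w <;> by_cases hyw' : y' = w
        · rw [hyw, hyw'] at hyy; exact absurd hyy H.irrefl
        · rw [hyw] at hyy
          rw [hyw, Function.update_self, hpu y' hy' hyy, hup p hpw]
          exact hx.2.symm
        · rw [hyw'] at hyy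
          rw [hyw', Function.update_self, hpu y hy hyy.symm, hup p hpw]
          exact hx.2
        · rw [hup y hyw, hup y' hyw']
          exact hφ3 y (mem_erase.mpr ⟨hyw, hy⟩) y' (mem_erase.mpr ⟨hyw', hy'⟩) hyy
    have hlow : ∀ v ∈ U \ Hi, (U.filter (G.Adj v)).card ≤ n := by
      intro v hv
      rw [mem_sdiff] at hv
      by_contra hlt
      exact hv.2 (mem_filter.mpr ⟨hv.1, by omega⟩)
    have h3 := lose_low G Hi n B h1 (n + 1) (U \ Hi) sdiff_disjoint
      (by rw [sdiff_union_of_subset hsub]; exact hlow)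
      (fun v hv => Nat.lt_succ_of_le
        ((card_le_card (filter_subset_filter _ sdiff_subset)).trans (hlow v hv)))
    rwa [sdiff_union_of_subset hsub] at h3

theorem bounded (W : Type) [Fintype W] (H : SimpleGraph W) (hH : H.IsAcyclic) :
    ∃ B : ℕ, ∀ (V : Type) [Fintype V] (G : SimpleGraph V), ¬ H.IsContained G →
        ∀ q : ℕ,
          (∃ f : V → (V → Fin q) → Fin q,
            (∀ (v : V) (c c' : V → Fin q), (∀ u : V, G.Adj v u → c u = c' u) → f v c = f v c') ∧
            ∀ c : V → Fin q, ∃ v : V, f v c = c v) →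
          q ≤ B := by
  obtain ⟨B, hB⟩ := forest H hH _ univ rfl
  refine ⟨B, fun V _ G hG q ⟨f, hf, hwin⟩ => ?_⟩
  by_contra hq
  push Not at hq
  have hq0 : 0 < q := by omega
  have h1 := hB V G univ (by
    rintro ⟨φ, -, h2, h3⟩
    exact hG ⟨⟨⟨φ, fun {a b} h => h3 a (mem_univ _) b (mem_univ _) h⟩,
      fun a b h => h2 (by simp) (by simp) h⟩⟩)
  obtain ⟨c, -, hc⟩ := h1 (fun v c => (f v (fun u => ⟨c u % q, Nat.mod_lt _ hq0⟩) : ℕ))
    (by
      intro v c c' h
      rw [hf v _ (fun u => ⟨c' u % q, Nat.mod_lt _ hq0⟩) (fun u hu => by simp only [h u hu])])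
    (fun _ => 0)
  obtain ⟨v, hv⟩ := hwin (fun u => ⟨c u % q, Nat.mod_lt _ hq0⟩)
  apply (hc v (mem_univ _)).2
  rw [hv]
  exact (Nat.mod_eq_of_lt ((hc v (mem_univ _)).1.trans hq)).symm

end Pool.Agent.H.Hat
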